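import Pool.Agent.W399.WP.Stm
/-! WP-INS (MP_dd8e80_al): insertion of a layer. -/
set_option autoImplicit false

namespace Pool.Agent.W465.WP399
open Pool.Agent.W399.WP

lemma bound_norms {M : Type} [CancelMonoid M] {A : Type} [Finite A] (φ : A → M) (D : CFData φ)
    (R : ℕ) : ∃ c₀ : ℕ, ∀ (y : D.X) (k σ : List A), k.length ≤ R → (k, σ) ∈ D.C y →
      nrm φ (pr φ σ) ≤ c₀ := by
  have := D.finX
  have hfin : (⋃ p ∈ (Set.univ : Set D.X) ×ˢ {l : List A | l.length ≤ R},
      {n : ℕ | ∃ σ : List A, (p.2, σ) ∈ D.C p.1 ∧ n = nrm φ (pr φ σ)}).Finite := by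
    apply Set.Finite.biUnion (Set.finite_univ.prod (List.finite_length_le A R))
    rintro ⟨y, k⟩ -
    apply Set.Subsingleton.finite
    rintro n ⟨σ, h1, rfl⟩ n' ⟨σ', h1', rfl⟩
    obtain ⟨a, v, hst⟩ := D.ctx y
    have e1 := (D.hC _ _).1 (hst _ _ h1)
    have e2 := (D.hC _ _).1 (hst _ _ h1')
    rw [pr_append, pr_append] at e1 e2
    rw [e1] at e2
    rw [mul_left_cancel e2]
  obtain ⟨c₀, hc₀⟩ := hfin.bddAbove
  refine ⟨c₀, fun y k σ hk h => hc₀ ?_⟩
  rw [Set.mem_iUnion₂]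
  exact ⟨(y, k), ⟨Set.mem_univ _, hk⟩, σ, h, rfl⟩

theorem ins : S_INS := by
  intro M _ A _ φ hs D
  obtain ⟨g₀, hg₀⟩ := (D.finE.image (nrm φ)).bddAbove
  have hgE : ∀ e ∈ D.E, nrm φ e ≤ max 1 g₀ := fun e he =>
    (hg₀ (Set.mem_image_of_mem _ he)).trans (le_max_right _ _)
  refine ⟨max 1 g₀, le_max_left _ _, hgE, fun R => ?_⟩
  have hg1 : 1 ≤ max 1 g₀ := le_max_left _ _
  generalize max 1 g₀ = g at hgE hg1
  obtain ⟨c₀, hc₀⟩ := bound_norms φ D R
  refine ⟨c₀, fun c hc K r x s s₂ s₀ hK hgeo hss hs₀ h2g hxs => ?_⟩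
  have hP : PCut φ K r (newK D c g K s) (x * pr φ s₂) x := by
    intro p k β hk hpk hpβ
    have hkv : k = pr φ β * pr φ s := by
      have : p * k = p * (pr φ β * pr φ s) := by rw [hpk, ← hxs, ← hpβ, mul_assoc]
      exact mul_left_cancel this
    obtain ⟨kw, hkw1, hkw2⟩ := exists_geo φ hs k
    have hkR : kw.length ≤ R := by rw [hkw2]; exact hK k hk
    have hlen : s.length = s₂.length + c := by rw [hss, List.length_append, hs₀]
    rcases D.awin kw β s g (s₂.length - g) (by rw [hkw1, hkv, pr_append])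
      (fun p' q r' h hq => by
        have := hgeo.factor φ h
        rw [Geo] at this
        rw [this]
        exact hgE _ hq) (by omega) (by omega) with
      ⟨y, k₁, k₂, σ₂, σ₁, e1, e2, e3, -, e5⟩ | ⟨β₁, β₂, σ₂, σ₁, e1, e2, e3, e4, e5⟩
    · exfalso
      have hσ : Geo φ σ₁ := hgeo.factor φ (s := σ₂) (u := []) (by rw [e2, List.append_nil])
      rw [Geo] at hσ
      have h1 : k₂.length ≤ R := by
        have : kw.length = k₁.length + k₂.length := by rw [e1, List.length_append]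
        omega
      have h2 := hc₀ y k₂ σ₁ h1 e5
      rw [← hσ] at h2
      have h3 : s.length = σ₂.length + σ₁.length := by rw [e2, List.length_append]
      omega
    · have hpre : σ₂ <+: s₂ := by
        apply List.prefix_of_prefix_length_le (l₃ := s)
        · exact ⟨σ₁, e2.symm⟩
        · exact ⟨s₀, hss.symm⟩
        · omega
      obtain ⟨h, hh⟩ := hpre
      have hhl : h.length ≤ g := by
        have : s₂.length = σ₂.length + h.length := by rw [← hh, List.length_append]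
        omega
      refine ⟨β₁, β₂, e1, pr φ (β₂ ++ σ₂) * pr φ h, ⟨_, e3, σ₂, h, s₀, ?_, hs₀, hhl, rfl, k, hk,
        pr φ β₁, ?_⟩, ?_⟩
      · rw [hh]; exact hss
      · rw [hkv, e1, hss, ← hh]
        simp only [pr_append, mul_assoc]
      · rw [← hpβ, e1, ← hh]
        simp only [pr_append, mul_assoc]
  refine ⟨fun hcut t ht => ?_, hP⟩
  obtain ⟨t₁, t₂, rfl, k, hk, hkr⟩ := hcut t ht
  obtain ⟨β₁, β₂, rfl, k', hk', he⟩ := hP (pr φ t₁) k t₂ hk hkr (by rw [← pr_append]; exact ht)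
  exact ⟨t₁ ++ β₁, β₂, by rw [List.append_assoc], k', hk', by rw [pr_append]; exact he⟩

end Pool.Agent.W465.WP399
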